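import Pool.Agent.H.Enflo.D

namespace Pool.Agent.Results.MP_f25c59_an.Main

open Filter Topology Set

/-- A real `p`-Banach space; the group norm is the `p`-th power of the `p`-norm. -/
structure PBan (p : ℝ) where
  X : Type
  [g : NormedAddCommGroup X]
  [m : Module ℝ X]
  [c : CompleteSpace X]
  hom : ∀ (a : ℝ) (x : X), ‖a • x‖ = |a| ^ p * ‖x‖

attribute [instance] PBan.g PBan.m PBan.c

/-- `f` is `L`-Lipschitz for the `p`-norm. -/
def Lip {p : ℝ} {M : Type} [MetricSpace M] (E : PBan p) (f : M → E.X) (L : ℝ) : Prop :=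
  ∀ x y, ‖f x - f y‖ ≤ (L * dist x y) ^ p

/-- `(F, δ)` is the Lipschitz free `p`-space over `(M, o)`. -/
def IsFree {p : ℝ} {M : Type} [MetricSpace M] (o : M) (F : PBan p) (δ : M → F.X) : Prop :=
  δ o = 0 ∧ Lip F δ 1 ∧ Dense (Submodule.span ℝ (range δ) : Set F.X) ∧
    ∀ (E : PBan p) (f : M → E.X), f o = 0 → (∃ L, 0 ≤ L ∧ Lip E f L) →
      ∃! T : F.X →L[ℝ] E.X, (∀ x, T (δ x) = f x) ∧
        ∀ L, 0 ≤ L → (Lip E f L ↔ ∀ v, ‖T v‖ ≤ L ^ p * ‖v‖)

/-- The approximation property. -/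
def AP {p : ℝ} (F : PBan p) : Prop :=
  ∀ K : Set F.X, IsCompact K → ∀ ε > 0, ∃ T : F.X →L[ℝ] F.X,
    FiniteDimensional ℝ (LinearMap.range T.toLinearMap) ∧ ∀ x ∈ K, ‖T x - x‖ < ε

open Pool.Agent.H.Enflo UniformSpace

variable {p : ℝ}

theorem csm (p0 : 0 < p) (F : PBan p) : ContinuousSMul ℝ F.X := by
  refine ⟨continuous_iff_continuousAt.2 fun a => tendsto_iff_norm_sub_tendsto_zero.2 ?_⟩
  have c : Continuous fun b : ℝ × F.X => |b.1| ^ p * ‖b.2 - a.2‖ + |b.1 - a.1| ^ p * ‖a.2‖ := by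
    have := Real.continuous_rpow_const p0.le
    fun_prop
  refine squeeze_zero (fun _ => norm_nonneg _) (fun b => ?_) (c.tendsto' a 0 (by simp [p0.ne']))
  rw [← F.hom, ← F.hom, ← sub_add_sub_cancel _ (b.1 • a.2), smul_sub, sub_smul]
  exact norm_add_le _ _

theorem snow (p0 : 0 < p) (p1 : p < 1) (Z : Type) [NormedAddCommGroup Z] [NormedSpace ℝ Z]
    [CompleteSpace Z] : ∃ (R : PBan p) (e : R.X ≃ₗ[ℝ] Z), ∀ x, ‖x‖ = ‖e x‖ ^ p := by
  obtain ⟨V, _, _, ⟨e⟩⟩ : ∃ (V : Type) (_ : AddCommGroup V) (_ : Module ℝ V),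
    Nonempty (V ≃ₗ[ℝ] Z) := ⟨Z, inferInstance, inferInstance, ⟨LinearEquiv.refl _ _⟩⟩
  letI : NormedAddCommGroup V := AddGroupNorm.toNormedAddCommGroup
    { toFun := fun x => ‖e x‖ ^ p
      map_zero' := by simp [p0.ne']
      add_le' := fun x y => by
        rw [map_add]
        exact (Real.rpow_le_rpow (norm_nonneg _) (norm_add_le _ _) p0.le).trans
          (Real.rpow_add_le_add_rpow (norm_nonneg _) (norm_nonneg _) p0.le p1.le)
      neg' := fun x => by simp
      eq_zero_of_map_eq_zero' := fun x h => by simpa [p0.ne'] using h }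
  have n : ∀ x : V, ‖x‖ = ‖e x‖ ^ p := fun _ => rfl
  have : CompleteSpace V := Metric.complete_of_cauchySeq_tendsto fun u hu => by
    obtain ⟨z, hz⟩ := cauchySeq_tendsto_of_complete (u := fun k => e (u k))
      (Metric.cauchySeq_iff.2 fun ε e0 => by
        obtain ⟨N, hN⟩ := Metric.cauchySeq_iff.1 hu (ε ^ p) (by positivity)
        refine ⟨N, fun a ha b hb => ?_⟩
        have := hN a ha b hb
        rwa [dist_eq_norm, n, map_sub, Real.rpow_lt_rpow_iff (norm_nonneg _) e0.le p0,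
          ← dist_eq_norm] at this)
    refine ⟨e.symm z, tendsto_iff_norm_sub_tendsto_zero.2 ?_⟩
    simpa [n, p0.ne'] using (tendsto_iff_norm_sub_tendsto_zero.1 hz).rpow_const (Or.inr p0.le)
  exact ⟨⟨V, fun a x => by
    rw [n, n, map_smul, norm_smul, Real.mul_rpow (norm_nonneg _) (norm_nonneg _)]; rfl⟩, e, n⟩

theorem lipf (p0 : 0 < p) (F : PBan p) (ψ : F.X →L[ℝ] ℝ) :
    ∃ C, 0 ≤ C ∧ ∀ v t, 0 ≤ t → ‖v‖ ≤ t ^ p → |ψ v| ≤ C * t := by
  obtain ⟨r, r0, hr⟩ := Metric.continuousAt_iff.1 (ψ.continuous.continuousAt (x := 0)) 1 one_pos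
  have s0 : 0 < (r / 2) ^ p⁻¹ := by positivity
  refine ⟨((r / 2) ^ p⁻¹)⁻¹, by positivity, fun v t t0 h => ?_⟩
  rcases t0.eq_or_lt with rfl | t0
  · rw [Real.zero_rpow p0.ne', norm_le_zero_iff] at h
    simp [h]
  · have := hr (x := ((r / 2) ^ p⁻¹ / t) • v) (by
      rw [dist_zero_right, F.hom, abs_of_pos (by positivity), Real.div_rpow s0.le t0.le,
        Real.rpow_inv_rpow (by positivity) p0.ne', div_mul_eq_mul_div, div_lt_iff₀ (by positivity)]
      nlinarith [Real.rpow_pos_of_pos t0 p])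
    rw [map_zero, dist_zero_right, map_smul, norm_smul, Real.norm_of_nonneg (by positivity),
      div_mul_eq_mul_div, div_lt_one t0] at this
    rw [le_inv_mul_iff₀ s0]
    exact this.le

theorem pre (p0 : 0 < p) {M : Type} [MetricSpace M] (o : M) :
    ∃ (V : Type) (_ : SeminormedAddCommGroup V) (_ : Module ℝ V) (d : M → V),
      Submodule.span ℝ (range d) = ⊤ ∧ (∀ (a : ℝ) (v : V), ‖a • v‖ = |a| ^ p * ‖v‖) ∧
      ‖d o‖ ≤ 0 ∧ (∀ x y, ‖d x - d y‖ ≤ dist x y ^ p) ∧
      ∀ (E : PBan p) (f : M → E.X), f o = 0 → ∃ T : V →ₗ[ℝ] E.X, (∀ x, T (d x) = f x) ∧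
        ∀ L, 0 ≤ L → Lip E f L → ∀ v, ‖T v‖ ≤ L ^ p * ‖v‖ := by
  obtain ⟨V, _, _, d, lf, ind⟩ : ∃ (V : Type) (_ : AddCommGroup V) (_ : Module ℝ V) (d : M → V),
      (∀ (E : PBan p) (f : M → E.X), ∃ T : V →ₗ[ℝ] E.X, ∀ x, T (d x) = f x) ∧
      Submodule.span ℝ (range d) = ⊤ :=
    ⟨M →₀ ℝ, inferInstance, inferInstance, fun x => Finsupp.single x 1,
      fun E f => ⟨Finsupp.linearCombination ℝ f, by simp⟩, by simpa using (Finsupp.basisSingleOne (R := ℝ) (ι := M)).span_eq⟩
  obtain ⟨S, hS⟩ : ∃ S : V → Set ℝ, ∀ v, S v = {r | ∃ (l : List (ℝ × M × M)) (c : ℝ),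
      v = c • d o + (l.map fun a => a.1 • (d a.2.1 - d a.2.2)).sum ∧
      r = (l.map fun a => (|a.1| * dist a.2.1 a.2.2) ^ p).sum} := ⟨_, fun _ => rfl⟩
  have S0 : ∀ v, ∀ r ∈ S v, 0 ≤ r := fun v r h => by
    rw [hS] at h
    obtain ⟨l, c, -, rfl⟩ := h
    exact List.sum_nonneg (by simp only [List.mem_map]; rintro _ ⟨a, -, rfl⟩; positivity)
  have S1 : ∀ u v, ∀ r ∈ S u, ∀ s ∈ S v, r + s ∈ S (u + v) := fun u v r h s k => by
    rw [hS] at *
    obtain ⟨l, c, rfl, rfl⟩ := h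
    obtain ⟨m, b, rfl, rfl⟩ := k
    exact ⟨l ++ m, c + b, by simp only [List.map_append, List.sum_append, add_smul]; abel, by simp⟩
  have S2 : ∀ (a : ℝ) v, ∀ r ∈ S v, |a| ^ p * r ∈ S (a • v) := fun a v r h => by
    rw [hS] at *
    obtain ⟨l, c, rfl, rfl⟩ := h
    refine ⟨l.map fun b => (a * b.1, b.2), a * c, ?_, ?_⟩
    · simp [List.smul_sum, Function.comp_def, mul_smul]
    · rw [← List.sum_map_mul_left, List.map_map]
      congr 2
      funext b
      simp only [Function.comp_apply, abs_mul, mul_assoc]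
      rw [Real.mul_rpow (abs_nonneg a) (by positivity)]
  have S3 : ∀ x y, dist x y ^ p ∈ S (d x - d y) := fun x y => by
    rw [hS]; exact ⟨[(1, x, y)], 0, by simp, by simp⟩
  have S4 : 0 ∈ S (d o) := by rw [hS]; exact ⟨[], 1, by simp, by simp⟩
  have S5 : ∀ v, (S v).Nonempty := fun v => by
    induction (ind ▸ Submodule.mem_top : v ∈ Submodule.span ℝ (range d))
      using Submodule.span_induction with
    | mem x h => obtain ⟨x, rfl⟩ := h; exact ⟨_, by simpa using S1 _ _ _ (S3 x o) _ S4⟩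
    | zero => exact ⟨_, by simpa using S2 0 _ _ S4⟩
    | add _ _ _ _ a b => exact ⟨_, S1 _ _ _ a.some_mem _ b.some_mem⟩
    | smul a _ _ b => exact ⟨_, S2 a _ _ b.some_mem⟩
  have n0 : ∀ v, ∀ r ∈ S v, sInf (S v) ≤ r := fun v r h => csInf_le ⟨0, S0 v⟩ h
  have n1 : ∀ (a : ℝ) v, sInf (S (a • v)) ≤ |a| ^ p * sInf (S v) := fun a v => by
    by_cases h : a = 0
    · simpa [h, p0.ne'] using n0 _ _ (S2 0 v _ (S5 v).some_mem)
    · have : 0 < |a| ^ p := by positivity
      rw [← inv_mul_le_iff₀ this]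
      exact le_csInf (S5 v) fun r k => (inv_mul_le_iff₀ this).2 (n0 _ _ (S2 a v r k))
  have n2 : ∀ (a : ℝ) v, sInf (S (a • v)) = |a| ^ p * sInf (S v) := fun a v => by
    refine le_antisymm (n1 a v) ?_
    by_cases h : a = 0
    · simpa [h, p0.ne'] using Real.sInf_nonneg (S0 _)
    · have := n1 a⁻¹ (a • v)
      rwa [inv_smul_smul₀ h, abs_inv, Real.inv_rpow (abs_nonneg a),
        le_inv_mul_iff₀ (by positivity)] at this
  refine ⟨V, AddGroupSeminorm.toSeminormedAddCommGroup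
    { toFun := fun v => sInf (S v)
      map_zero' := by simpa [p0.ne'] using n2 0 0
      add_le' := fun u v => by
        rw [← sub_le_iff_le_add]
        refine le_csInf (S5 u) fun r h => ?_
        rw [sub_le_comm]
        exact le_csInf (S5 v) fun s k => by linarith [n0 _ _ (S1 _ _ _ h _ k)]
      neg' := fun v => by simpa using n2 (-1) v }, inferInstance, d, ind, n2, n0 _ _ S4,
    fun x y => n0 _ _ (S3 x y), fun E f f0 => ?_⟩
  obtain ⟨T, hT⟩ := lf E f
  refine ⟨T, hT, fun L L0 h v => ?_⟩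
  show _ ≤ L ^ p * sInf (S v)
  have k : ∀ r ∈ S v, ‖T v‖ ≤ L ^ p * r := fun r k => by
    rw [hS] at k
    obtain ⟨l, c, rfl, rfl⟩ := k
    rw [map_add, map_smul, hT, f0, smul_zero, zero_add]
    induction l with
    | nil => simp
    | cons a l ih =>
      rw [List.map_cons, List.sum_cons, List.map_cons, List.sum_cons, map_add, mul_add]
      refine (norm_add_le _ _).trans (add_le_add ?_ ih)
      rw [map_smul, map_sub, hT, hT, E.hom, ← Real.mul_rpow L0 (by positivity), mul_left_comm,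
        Real.mul_rpow (abs_nonneg _) (by positivity)]
      exact mul_le_mul_of_nonneg_left (h _ _) (by positivity)
  rcases L0.eq_or_lt with rfl | L0
  · simpa [p0.ne'] using k _ (S5 v).some_mem
  · have : 0 < L ^ p := by positivity
    rw [← inv_mul_le_iff₀ this]
    exact le_csInf (S5 v) fun r a => (inv_mul_le_iff₀ this).2 (k r a)

theorem free (p0 : 0 < p) {M : Type} [MetricSpace M] (o : M) :
    ∃ (F : PBan p) (δ : M → F.X), IsFree o F δ := by
  obtain ⟨V, _, _, d, ind, n3, d0, d1, lf⟩ := pre p0 o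
  have : UniformContinuousConstSMul ℝ V := ⟨fun a => uniformContinuous_addMonoidHom_of_continuous
    (AddMonoidHomClass.continuous_of_bound (DistribSMul.toAddMonoidHom V a) _ fun v => (n3 a v).le)⟩
  let F : PBan p := ⟨Completion V, fun a x => by
    induction x using Completion.induction_on with
    | hp => exact isClosed_eq (continuous_const_smul a).norm (continuous_const.mul continuous_norm)
    | ih v => rw [← Completion.coe_smul, Completion.norm_coe, Completion.norm_coe, n3]⟩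
  have lp : Lip F (fun x => (d x : Completion V)) 1 := fun x y => by
    show ‖(d x : Completion V) - d y‖ ≤ _
    rw [← Completion.coe_sub, Completion.norm_coe, one_mul]
    exact d1 x y
  have de : Dense (Submodule.span ℝ (range fun x => (d x : Completion V)) : Set (Completion V)) := by
    refine Completion.denseRange_coe.mono ?_
    rintro _ ⟨v, rfl⟩
    induction (ind ▸ Submodule.mem_top : v ∈ Submodule.span ℝ (range d))
      using Submodule.span_induction with
    | mem x h => obtain ⟨x, rfl⟩ := h; exact Submodule.subset_span ⟨x, rfl⟩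
    | zero => exact zero_mem _
    | add _ _ _ _ a b => rw [Completion.coe_add]; exact add_mem a b
    | smul a _ _ b => rw [Completion.coe_smul]; exact Submodule.smul_mem _ _ b
  refine ⟨F, fun x => (d x : Completion V), ?_, lp, de, fun E f f0 ⟨L, L0, hL⟩ => ?_⟩
  · show (d o : Completion V) = 0
    rwa [← norm_le_zero_iff, Completion.norm_coe]
  obtain ⟨T, hT, T1⟩ := lf E f f0
  have Tc := AddMonoidHomClass.continuous_of_bound T.toAddMonoidHom _ (T1 L L0 hL)
  obtain ⟨U, Te, Tk⟩ : ∃ U : Completion V →+ E.X, (∀ v : V, U v = T v) ∧ Continuous U :=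
    ⟨_, T.toAddMonoidHom.extension_coe Tc, T.toAddMonoidHom.continuous_extension Tc⟩
  have := csm p0 E
  refine ⟨⟨⟨U.toAddHom, fun a x => ?_⟩, Tk⟩,
    ⟨fun x => (Te _).trans (hT x), fun L L0 => ⟨fun h v => ?_, fun h x y => ?_⟩⟩, fun W hW => ?_⟩
  · show U (a • x) = a • U x
    induction x using Completion.induction_on with
    | hp => exact isClosed_eq (Tk.comp (continuous_const_smul a)) (Tk.const_smul a)
    | ih v => rw [← Completion.coe_smul, Te, Te]; exact T.map_smul a v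
  · show ‖U v‖ ≤ _
    induction v using Completion.induction_on with
    | hp => exact isClosed_le Tk.norm (continuous_const.mul continuous_norm)
    | ih v => rw [Te, Completion.norm_coe]; exact T1 L L0 h v
  · have : ‖U (d x - d y)‖ ≤ _ := h _
    rw [map_sub, Te, Te] at this
    rw [← hT, ← hT, Real.mul_rpow L0 dist_nonneg]
    exact this.trans (mul_le_mul_of_nonneg_left (by simpa using lp x y) (by positivity))
  · refine ContinuousLinearMap.ext_on de ?_
    rintro _ ⟨x, rfl⟩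
    exact (hW.1 x).trans ((Te _).trans (hT x)).symm

theorem result (p : ℝ) (p0 : 0 < p) (p1 : p < 1) : ∃ (M : Type) (_ : MetricSpace M) (o : M),
    (∃ (F : PBan p) (δ : M → F.X), IsFree o F δ) ∧
      ∀ (F : PBan p) (δ : M → F.X), IsFree o F δ → ¬ AP F := by
  obtain ⟨Z, _, _, _, φ, y, c, h⟩ := spc
  refine ⟨Z, inferInstance, 0, free p0 0, fun F δ ⟨_, d1, _, un⟩ ap => ?_⟩
  obtain ⟨R, e, he⟩ := snow p0 p1 Z
  have l1 : Lip R e.symm 1 := fun a b => by
    rw [he, map_sub, e.apply_symm_apply, e.apply_symm_apply, one_mul, dist_eq_norm]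
  obtain ⟨B, ⟨B1, B2⟩, -⟩ := un R e.symm (map_zero _) ⟨1, zero_le_one, l1⟩
  have B3 : ∀ v t, 0 ≤ t → ‖v‖ ≤ t ^ p → ‖e (B v)‖ ≤ t := fun v t t0 k => by
    have := (B2 1 zero_le_one).1 l1 v
    rw [he, Real.one_rpow, one_mul] at this
    exact (Real.rpow_le_rpow_iff (norm_nonneg _) t0 p0).1 (this.trans k)
  have dc : Continuous δ := continuous_iff_continuousAt.2 fun a =>
    tendsto_iff_norm_sub_tendsto_zero.2 (squeeze_zero (fun _ => norm_nonneg _) (fun b => d1 b a)
      (Continuous.tendsto' (by have := Real.continuous_rpow_const p0.le; fun_prop) a 0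
        (by simp [p0.ne'])))
  have := csm p0 F
  obtain ⟨x, hx⟩ : ∃ x : ℕ → Z, ∀ k, x k = ((2 : ℝ) ^ k)⁻¹ • y k := ⟨_, fun _ => rfl⟩
  have x1 : ∀ k, (2 : ℝ) ^ k • x k = y k := fun k => by rw [hx, smul_inv_smul₀ (by positivity)]
  have x2 : ∀ k, 2 ^ k * ‖x k‖ = ‖y k‖ := fun k => by
    rw [← x1, norm_smul, Real.norm_of_nonneg (by positivity)]
  obtain ⟨Q, Q1, Q2⟩ := cube x (Summable.of_nonneg_of_le (fun _ => norm_nonneg _) (fun k => by
    rw [hx, norm_smul, Real.norm_of_nonneg (by positivity), one_div, inv_pow]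
    exact mul_le_of_le_one_right (by positivity) (h.y1 k)) summable_geometric_two)
  have c1 : 0 ≤ ∑' k, c k := tsum_nonneg h.c0
  obtain ⟨η, η0, η1⟩ : ∃ η : ℝ, 0 < η ∧ η * ∑' k, c k ≤ 1 / 2 := ⟨(2 * (∑' k, c k + 1))⁻¹,
    by positivity, by rw [inv_mul_le_iff₀ (by positivity)]; linarith⟩
  obtain ⟨S, S0, S1⟩ := ap _ (cun (fun k => (fun u => (2 : ℝ) ^ k • (δ (u + x k) - δ u)) '' Q)
    (fun k => Q1.image (by fun_prop)) (fun k => ‖y k‖ ^ p)
    (by simpa [p0.ne'] using h.y0.norm.rpow_const (Or.inr p0.le)) (by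
      rintro k _ ⟨u, -, rfl⟩
      rw [F.hom, abs_of_pos (by positivity), ← x2, Real.mul_rpow (by positivity) (norm_nonneg _)]
      exact mul_le_mul_of_nonneg_left (by simpa using d1 (u + x k) u) (by positivity)))
    (η ^ p) (by positivity)
  obtain ⟨ι, _, ψ, w, hw⟩ := fr S S0
  choose C C0 hC using fun i => lipf p0 F (ψ i)
  let g : ι → C(Z, ℝ) := fun i => ⟨fun u => ψ i (δ u), (ψ i).continuous.comp dc⟩
  have g1 : ∀ i a b, |g i a - g i b| ≤ C i * ‖a - b‖ := fun i a b => by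
    have := hC i _ _ (norm_nonneg (a - b)) (by simpa [dist_eq_norm] using d1 a b)
    rwa [map_sub] at this
  have key : ∀ N, ∑ k ∈ Finset.range N, c k * φ k (y k) ≤ 1 / 2 +
      ∑ i, C i * ‖∑ k ∈ Finset.range N, (c k * φ k (e (B (S (w i))))) • y k‖ := fun N => by
    obtain ⟨ρ, r1, r2⟩ := gk x N
    have a1 : ∀ k, |ρ k (∑ i, φ k (e (B (S (w i)))) • g i) - φ k (x k)| ≤ (2 ^ k)⁻¹ * η :=
      fun k => r1 k _ _ _ fun t => by
        have := B3 _ η η0.le (S1 _ (subset_closure (mem_iUnion.2 ⟨k, _, Q2 N t, rfl⟩))).le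
        generalize ∑ i ∈ Finset.range N, (t i : ℝ) • x i = u at *
        have := (h.f1 k _).trans this
        rw [le_inv_mul_iff₀ (by positivity), ← abs_of_pos (by positivity : (0 : ℝ) < 2 ^ k),
          ← abs_mul]
        refine le_trans (le_of_eq (congrArg abs ?_)) this
        rw [hw]
        simp [g, B1, mul_sub, Finset.mul_sum, mul_comm]
        simp only [sub_mul, mul_assoc, Finset.sum_sub_distrib]
    have a2 : ∀ i, |∑ k ∈ Finset.range N, c k * φ k (e (B (S (w i)))) * 2 ^ k * ρ k (g i)| ≤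
        C i * ‖∑ k ∈ Finset.range N, (c k * φ k (e (B (S (w i))))) • y k‖ := fun i => by
      simpa only [mul_smul, x1] using r2 (g i) (C i) (C0 i) (g1 i)
        fun k => c k * φ k (e (B (S (w i)))) * 2 ^ k
    have a3 : ∀ k, c k * φ k (y k) ≤ η * c k +
        ∑ i, c k * φ k (e (B (S (w i)))) * 2 ^ k * ρ k (g i) := fun k => by
      have b := mul_le_mul_of_nonneg_left (abs_le.1 (a1 k)).1
        (mul_nonneg (h.c0 k) (by positivity : (0 : ℝ) ≤ 2 ^ k))
      have b1 : c k * 2 ^ k * -((2 ^ k)⁻¹ * η) = -(η * c k) := by field_simp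
      have b2 : c k * 2 ^ k * ρ k (∑ i, φ k (e (B (S (w i)))) • g i) =
          ∑ i, c k * φ k (e (B (S (w i)))) * 2 ^ k * ρ k (g i) := by
        rw [map_sum, Finset.mul_sum]
        exact Finset.sum_congr rfl fun i _ => by rw [map_smul, smul_eq_mul]; ring
      rw [← x1, map_smul, smul_eq_mul]
      linarith
    refine (Finset.sum_le_sum fun k _ => a3 k).trans ?_
    rw [Finset.sum_add_distrib, Finset.sum_comm, ← Finset.mul_sum]
    exact add_le_add ((mul_le_mul_of_nonneg_left (h.cs.sum_le_tsum _ fun k _ => h.c0 k)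
      η0.le).trans η1) (Finset.sum_le_sum fun i _ => (le_abs_self _).trans (a2 i))
  have s3 : Summable fun k => c k * φ k (y k) := by
    by_contra k
    have := h.tr
    rw [tsum_eq_zero_of_not_summable k] at this
    exact zero_ne_one this
  have := le_of_tendsto_of_tendsto' s3.hasSum.tendsto_sum_nat ((tendsto_finsetSum Finset.univ
    fun i _ => (h.sq (e (B (S (w i))))).tendsto_sum_nat.norm.const_mul (C i)).const_add (1 / 2)) key
  rw [h.tr] at this
  norm_num at this

end Pool.Agent.Results.MP_f25c59_an.Main
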